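import Mathlib

set_option autoImplicit false

namespace Pool.Agent.Results.MP_22e672_co.FourCube

/-- A face of `P`: `P` itself or the intersection of `P` with a supporting hyperplane. -/
def IsFace {d : ℕ} (P F : Set (Fin d → ℝ)) : Prop :=
  F = P ∨ ∃ (f : (Fin d → ℝ) →ₗ[ℝ] ℝ) (c : ℝ), f ≠ 0 ∧ (∀ x ∈ P, f x ≤ c) ∧ (∃ x ∈ P, f x = c) ∧
    F = P ∩ {x | f x = c}

/-- The boundary points of `P` that lie in no `i`-dimensional face of `P`. -/
def X {d : ℕ} (i : ℕ) (P : Set (Fin d → ℝ)) : Set (Fin d → ℝ) :=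
  {b | b ∈ frontier P ∧
    ¬ ∃ F, IsFace P F ∧ Module.finrank ℝ (affineSpan ℝ F).direction = i ∧ b ∈ F}

/-- The source `s` illuminates the boundary point `b` of `P`. -/
def Illuminates {d : ℕ} (P : Set (Fin d → ℝ)) (s b : Fin d → ℝ) : Prop :=
  (∃ t : ℝ, 0 ≤ t ∧ s + t • (b - s) ∈ interior P) ∧ ∀ y ∈ segment ℝ s b, y ∈ P → y = b

lemma hull : convexHull ℝ ((Fintype.piFinset fun _ : Fin 4 => ({-1, 1} : Finset ℝ) :
    Finset (Fin 4 → ℝ)) : Set (Fin 4 → ℝ)) = Set.univ.pi fun _ => Set.Icc (-1 : ℝ) 1 := by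
  rw [Fintype.coe_piFinset, convexHull_pi]
  simp [segment_eq_Icc]

lemma int_cube : interior (Set.univ.pi fun _ : Fin 4 => Set.Icc (-1 : ℝ) 1) =
    Set.univ.pi fun _ => Set.Ioo (-1 : ℝ) 1 := by
  rw [interior_pi_set Set.finite_univ]
  simp

def QI (a b : Fin 4 → Bool) : Prop := ∀ x y : Bool, ∃ r, a r = x ∧ b r = y

instance (a b : Fin 4 → Bool) : Decidable (QI a b) := by unfold QI; infer_instance

lemma noCA : ∀ a b : Fin 4 → Bool, QI a b → ∀ c, QI a c → QI b c → ∀ d, QI a d → QI b d →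
    ¬ QI c d := by decide +kernel

lemma other : ∀ k l : Fin 4, ∃ m n : Fin 4, m ≠ n ∧ m ≠ k ∧ m ≠ l ∧ n ≠ k ∧ n ≠ l := by decide

lemma memX (b : Fin 4 → ℝ) (hb : ∀ r, b r ∈ Set.Icc (-1 : ℝ) 1) (k m n : Fin 4) (hmn : m ≠ n)
    (hk : b k = 1 ∨ b k = -1) (hm : b m = 0) (hn : b n = 0) :
    b ∈ X 1 (Set.univ.pi fun _ : Fin 4 => Set.Icc (-1 : ℝ) 1) := by
  have hP : ∀ (j : Fin 4) (t : ℝ), b j = 0 → t = 1 ∨ t = -1 → b + t • Pi.single j 1 ∈
      Set.univ.pi fun _ : Fin 4 => Set.Icc (-1 : ℝ) 1 := by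
    intro j t hj ht r _
    by_cases e : r = j
    · subst e
      rcases ht with rfl | rfl <;> simp [hj]
    · simpa [e] using hb r
  refine ⟨⟨subset_closure fun r _ => hb r, ?_⟩, ?_⟩
  · rw [int_cube]
    intro h
    have := h k trivial
    rcases hk with h | h <;> simp [h] at this
  · rintro ⟨F, hF, hdim, hbF⟩
    have key : ∀ j : Fin 4, b j = 0 → (Pi.single j 1 : Fin 4 → ℝ) ∈ (affineSpan ℝ F).direction := by
      intro j hj
      have h1 : b + (1 : ℝ) • Pi.single j 1 ∈ F := by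
        rcases hF with rfl | ⟨f, c, -, h2, -, rfl⟩
        · exact hP j 1 hj (Or.inl rfl)
        · refine ⟨hP j 1 hj (Or.inl rfl), ?_⟩
          have a1 := h2 _ (hP j 1 hj (Or.inl rfl))
          have a2 := h2 _ (hP j (-1) hj (Or.inr rfl))
          have a3 : f b = c := hbF.2
          change f _ = c
          rw [map_add, map_smul, smul_eq_mul] at a1 a2 ⊢
          linarith
      have := AffineSubspace.vsub_mem_direction (mem_affineSpan ℝ h1) (mem_affineSpan ℝ hbF)
      simpa using this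
    obtain ⟨v, -, hv⟩ := finrank_eq_one_iff'.1 hdim
    obtain ⟨c1, h1⟩ := hv ⟨_, key m hm⟩
    obtain ⟨c2, h2⟩ := hv ⟨_, key n hn⟩
    have a1 := congrFun (congrArg Subtype.val h1) m
    have a2 := congrFun (congrArg Subtype.val h1) n
    have a3 := congrFun (congrArg Subtype.val h2) m
    have a4 := congrFun (congrArg Subtype.val h2) n
    simp [hmn, hmn.symm] at a1 a2 a3 a4
    rcases a2 with h | h
    · simp [h] at a1
    · simp [h] at a4

lemma sgn {s b : Fin 4 → ℝ}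
    (h : Illuminates (Set.univ.pi fun _ : Fin 4 => Set.Icc (-1 : ℝ) 1) s b) (k : Fin 4) (x : Bool)
    (hk : b k = if x then 1 else -1) : decide (0 < s k) = x := by
  obtain ⟨⟨t, ht, h1⟩, h2⟩ := h
  have h3 := h1
  rw [int_cube] at h3
  have h4 := h3 k trivial
  have ht1 : 1 < t := by
    by_contra hh
    have := h2 _ ⟨1 - t, t, by linarith, ht, by ring, by module⟩ (interior_subset h1)
    rw [this, hk] at h4
    cases x <;> simp at h4
  simp only [Pi.add_apply, Pi.smul_apply, Pi.sub_apply, smul_eq_mul, hk, Set.mem_Ioo] at h4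
  cases x
  · simp only [Bool.false_eq_true, if_false] at h4
    simp only [decide_eq_false_iff_not, not_lt]
    nlinarith [h4.1]
  · simp only [if_true] at h4
    simp only [decide_eq_true_eq]
    nlinarith [h4.2]

theorem result :
    ¬ ∀ (d : ℕ), 2 ≤ d → ∀ i : ℕ, i ≤ d - 1 → ∀ V : Finset (Fin d → ℝ),
      (interior (convexHull ℝ (V : Set (Fin d → ℝ)))).Nonempty →
      ∃ S : Finset (Fin d → ℝ), S.card ≤ 2 ^ (d - 1 - i) ∧
        (∀ s ∈ S, s ∉ convexHull ℝ (V : Set (Fin d → ℝ))) ∧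
        ∀ b ∈ X i (convexHull ℝ (V : Set (Fin d → ℝ))),
          ∃ s ∈ S, Illuminates (convexHull ℝ (V : Set (Fin d → ℝ))) s b := by
  intro h
  obtain ⟨S, hS, -, hI⟩ := h 4 (by norm_num) 1 (by norm_num)
    (Fintype.piFinset fun _ : Fin 4 => ({-1, 1} : Finset ℝ))
    (by rw [hull, int_cube]; exact ⟨0, fun r _ => by simp⟩)
  rw [hull] at hI
  have key : ∀ k l : Fin 4, k ≠ l → QI (fun r => decide (0 < S.toList.getD r 0 k))
      (fun r => decide (0 < S.toList.getD r 0 l)) := by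
    intro k l hkl x y
    obtain ⟨m, n, h1, h2, h3, h4, h5⟩ := other k l
    obtain ⟨s, hs, hsb⟩ := hI (fun r => if r = k then (if x then 1 else -1) else
        if r = l then (if y then 1 else -1) else 0)
      (memX _ (fun r => by split_ifs <;> norm_num) k m n h1 (by cases x <;> simp)
        (by simp [h2, h3]) (by simp [h4, h5]))
    obtain ⟨r, hr, rfl⟩ := List.getElem_of_mem (Finset.mem_toList.2 hs)
    have hr4 : r < 4 := by
      rw [Finset.length_toList] at hr
      omega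
    refine ⟨⟨r, hr4⟩, ?_, ?_⟩
    · simp only [List.getD_eq_getElem _ _ hr]
      exact sgn hsb k x (by simp)
    · simp only [List.getD_eq_getElem _ _ hr]
      exact sgn hsb l y (by simp [hkl.symm])
  exact noCA _ _ (key 0 1 (by decide)) _ (key 0 2 (by decide)) (key 1 2 (by decide)) _
    (key 0 3 (by decide)) (key 1 3 (by decide)) (key 2 3 (by decide))

end Pool.Agent.Results.MP_22e672_co.FourCube
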